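import Pool.Agent.W325.KZ.Defs

/-!
# KZ-CM: Cameron-Martin inequality for symmetric sets
-/

set_option autoImplicit false

open Finset MeasureTheory ProbabilityTheory Filter Topology
open scoped ENNReal

namespace Pool.Agent.W799.KZ

open Pool.Agent.W325.KZ

theorem gauss_shift (h : ℝ) : gaussianReal h 1 =
    (gaussianReal 0 1).withDensity (fun x => ENNReal.ofReal (Real.exp (h * x - h ^ 2 / 2))) := by
  have h1 : (1 : NNReal) ≠ 0 := one_ne_zero
  rw [gaussianReal_of_var_ne_zero _ h1, gaussianReal_of_var_ne_zero _ h1,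
    ← withDensity_mul _ (measurable_gaussianPDF 0 1) (by fun_prop)]
  congr 1
  ext x
  simp only [Pi.mul_apply, gaussianPDF]
  rw [← ENNReal.ofReal_mul (gaussianPDFReal_nonneg 0 1 x)]
  congr 1
  simp only [gaussianPDFReal]
  rw [mul_assoc _ (Real.exp _) (Real.exp _), ← Real.exp_add]
  congr 2
  push_cast
  ring

theorem pi_wd {ι : Type*} [Fintype ι] (μ : ι → Measure ℝ) [∀ i, IsProbabilityMeasure (μ i)]
    (f : ι → ℝ → ℝ≥0∞) (hf : ∀ i, Measurable (f i))
    [∀ i, SigmaFinite ((μ i).withDensity (f i))] :
    Measure.pi (fun i => (μ i).withDensity (f i)) =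
      (Measure.pi μ).withDensity (fun x => ∏ i, f i (x i)) := by
  classical
  refine Measure.pi_eq fun s hs => ?_
  rw [withDensity_apply _ (MeasurableSet.univ_pi hs), ← lintegral_indicator (MeasurableSet.univ_pi hs)]
  have e1 : (Set.univ.pi s).indicator (fun x : ι → ℝ => ∏ i, f i (x i)) =
      fun x => ∏ i, (s i).indicator (f i) (x i) := by
    ext x
    by_cases hx : x ∈ Set.univ.pi s
    · rw [Set.indicator_of_mem hx]
      refine Finset.prod_congr rfl fun i _ => ?_
      rw [Set.indicator_of_mem (hx i (Set.mem_univ i))]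
    · rw [Set.indicator_of_notMem hx]
      simp only [Set.mem_pi, Set.mem_univ, true_imp_iff, not_forall] at hx
      obtain ⟨i, hi⟩ := hx
      exact (Finset.prod_eq_zero (Finset.mem_univ i) (Set.indicator_of_notMem hi _)).symm
  rw [e1]
  have hm : ∀ i, Measurable ((s i).indicator (f i)) := fun i => (hf i).indicator (hs i)
  have hind : iIndepFun (fun i (x : ι → ℝ) => (s i).indicator (f i) (x i)) (Measure.pi μ) :=
    iIndepFun_pi (X := fun i => (s i).indicator (f i)) (fun i => (hm i).aemeasurable)
  have e2 := lintegral_prod_eq_prod_lintegral_of_indepFun (μ := Measure.pi μ) Finset.univ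
    (fun i (x : ι → ℝ) => (s i).indicator (f i) (x i)) hind
    (fun i => (hm i).comp (measurable_pi_apply i))
  rw [e2]
  refine Finset.prod_congr rfl fun i _ => ?_
  have e3 := (measurePreserving_eval μ i).lintegral_comp (hm i)
  rw [withDensity_apply _ (hs i), ← lintegral_indicator (hs i)]
  exact e3

/-- the finite dimensional inequality -/
theorem cm_pi {ι : Type*} [Fintype ι] (h : ι → ℝ) (S : Set (ι → ℝ)) (hS : MeasurableSet S)
    (hsym : ∀ x ∈ S, -x ∈ S) :
    ENNReal.ofReal (Real.exp (-(∑ i, h i ^ 2) / 2)) *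
        Measure.pi (fun _ : ι => gaussianReal 0 1) S ≤
      Measure.pi (fun _ : ι => gaussianReal 0 1) {x | x - h ∈ S} := by
  classical
  set γ : Measure (ι → ℝ) := Measure.pi (fun _ : ι => gaussianReal 0 1) with hγ
  set G : (ι → ℝ) → ℝ≥0∞ :=
    fun x => ∏ i, ENNReal.ofReal (Real.exp (-h i * x i - (-h i) ^ 2 / 2)) with hG
  have hGm : Measurable G := by
    rw [hG]; fun_prop
  -- shift
  have e0 : γ.map (fun (x : ι → ℝ) i => x i + (-h i)) =
      Measure.pi (fun i => (gaussianReal 0 1).map (fun t => t + (-h i))) := by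
    rw [hγ]
    haveI : ∀ i : ι, SigmaFinite ((gaussianReal 0 1).map (fun t => t + (-h i))) := by
      intro i
      rw [gaussianReal_map_add_const]
      infer_instance
    exact Measure.pi_map_pi (f := fun i t => t + (-h i)) (fun i => by fun_prop)
  have e1 : γ.map (fun (x : ι → ℝ) i => x i + (-h i)) = γ.withDensity G := by
    rw [e0]
    have : (fun i : ι => (gaussianReal 0 1).map (fun t => t + (-h i))) =
        fun i => (gaussianReal 0 1).withDensity
          (fun x => ENNReal.ofReal (Real.exp (-h i * x - (-h i) ^ 2 / 2))) := by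
      funext i
      rw [gaussianReal_map_add_const, zero_add, ← gauss_shift]
    rw [this]
    haveI : ∀ i : ι, SigmaFinite ((gaussianReal 0 1).withDensity
          (fun x => ENNReal.ofReal (Real.exp (-h i * x - (-h i) ^ 2 / 2)))) := by
      intro i
      rw [← gauss_shift]
      infer_instance
    exact pi_wd (fun _ : ι => gaussianReal 0 1)
      (fun i x => ENNReal.ofReal (Real.exp (-h i * x - (-h i) ^ 2 / 2))) (fun i => by fun_prop)
  have e2 : γ {x | x - h ∈ S} = ∫⁻ x in S, G x ∂γ := by
    rw [← withDensity_apply _ hS, ← e1, Measure.map_apply (by fun_prop) hS]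
    congr 1
  -- symmetry
  have hneg : γ.map (fun x : ι → ℝ => -x) = γ := by
    have := Measure.pi_map_pi (μ := fun _ : ι => gaussianReal 0 1) (f := fun _ t => -t)
      (hμ := fun i => by rw [gaussianReal_map_neg]; infer_instance) (fun i => by fun_prop)
    rw [hγ]
    have h2 : (fun x : ι → ℝ => -x) = fun x i => -(x i) := by
      ext x i; rfl
    rw [h2, this]
    congr 1
    funext i
    rw [gaussianReal_map_neg, neg_zero]
  have e3 : ∫⁻ x in S, G x ∂γ = ∫⁻ x in S, G (-x) ∂γ := by
    have hmp : MeasurePreserving (fun x : ι → ℝ => -x) γ γ := ⟨by fun_prop, hneg⟩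
    have hpre : (fun x : ι → ℝ => -x) ⁻¹' S = S := by
      ext x
      constructor
      · intro hx
        have := hsym _ hx
        simpa using this
      · intro hx
        exact hsym x hx
    have := hmp.setLIntegral_comp_preimage hS hGm
    rw [hpre] at this
    exact this.symm
  have key : ∀ x : ι → ℝ, 2 * ENNReal.ofReal (Real.exp (-(∑ i, h i ^ 2) / 2)) ≤ G x + G (-x) := by
    intro x
    have g1 : ∀ y : ι → ℝ, G y = ENNReal.ofReal (Real.exp (-(∑ i, h i * y i) - (∑ i, h i ^ 2) / 2)) := by
      intro y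
      simp only [hG]
      rw [← ENNReal.ofReal_prod_of_nonneg (fun i _ => (Real.exp_pos _).le), ← Real.exp_sum]
      congr 2
      rw [Finset.sum_sub_distrib, ← Finset.sum_neg_distrib, Finset.sum_div]
      congr 1
      · exact Finset.sum_congr rfl fun i _ => by ring
      · exact Finset.sum_congr rfl fun i _ => by ring
    rw [g1, g1]
    set u := ∑ i, h i * x i with hu
    have hu' : ∑ i, h i * (-x) i = -u := by
      rw [hu, ← Finset.sum_neg_distrib]
      exact Finset.sum_congr rfl fun i _ => by simp
    rw [hu']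
    set w := (∑ i, h i ^ 2) / 2 with hw
    rw [← ENNReal.ofReal_add (Real.exp_pos _).le (Real.exp_pos _).le]
    have h2 : (2 : ℝ≥0∞) = ENNReal.ofReal 2 := by simp
    rw [h2, ← ENNReal.ofReal_mul (by norm_num)]
    apply ENNReal.ofReal_le_ofReal
    have h3 : -(∑ i, h i ^ 2) / 2 = -w := by rw [hw]; ring
    rw [h3, sub_eq_add_neg, sub_eq_add_neg, Real.exp_add, Real.exp_add, ← add_mul]
    apply mul_le_mul_of_nonneg_right _ (Real.exp_pos _).le
    have h4 := Real.add_one_le_exp (-u)
    have h5 := Real.add_one_le_exp (- -u)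
    linarith
  rw [e2]
  have h2 : 2 * (ENNReal.ofReal (Real.exp (-(∑ i, h i ^ 2) / 2)) * γ S) ≤
      2 * ∫⁻ x in S, G x ∂γ := by
    calc 2 * (ENNReal.ofReal (Real.exp (-(∑ i, h i ^ 2) / 2)) * γ S)
        = ∫⁻ _ in S, 2 * ENNReal.ofReal (Real.exp (-(∑ i, h i ^ 2) / 2)) ∂γ := by
          rw [lintegral_const, Measure.restrict_apply_univ, mul_assoc]
      _ ≤ ∫⁻ x in S, (G x + G (-x)) ∂γ := lintegral_mono fun x => key x
      _ = (∫⁻ x in S, G x ∂γ) + ∫⁻ x in S, G (-x) ∂γ := lintegral_add_left hGm _
      _ = 2 * ∫⁻ x in S, G x ∂γ := by rw [← e3, two_mul]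
  exact (ENNReal.mul_le_mul_iff_right (by norm_num) (by norm_num)).1 h2

/-- CM: Cameron-Martin inequality for symmetric sets -/
theorem cm : S_CM := by
  classical
  intro m S h hS hdep hsym
  set γ : Measure (Finset.range m → ℝ) := Measure.pi (fun _ => gaussianReal 0 1) with hγ
  have hmap : ga.map (Finset.range m).restrict = γ := by
    unfold ga
    rw [Measure.infinitePi_map_restrict]
  set ext : (Finset.range m → ℝ) → (ℕ → ℝ) :=
    fun x k => if hk : k ∈ Finset.range m then x ⟨k, hk⟩ else 0 with hext
  have hextm : Measurable ext := by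
    refine measurable_pi_lambda _ fun k => ?_
    by_cases hk : k ∈ Finset.range m
    · simp only [hext, hk, dif_pos]
      exact measurable_pi_apply _
    · simp only [hext, hk, dif_neg, not_false_eq_true]
      exact measurable_const
  set S' : Set (Finset.range m → ℝ) := ext ⁻¹' S with hS'
  have hS'm : MeasurableSet S' := hextm hS
  have hiff : ∀ a : ℕ → ℝ, (a ∈ S ↔ (Finset.range m).restrict a ∈ S') := by
    intro a
    have := hdep (x := a) (y := ext ((Finset.range m).restrict a)) (by
      intro k hk
      have hk' : k ∈ Finset.range m := Finset.mem_range.2 hk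
      simp [hext, Finset.mem_range.1 hk'])
    simp only at this
    rw [hS', Set.mem_preimage]
    exact Iff.of_eq this
  have hrm : Measurable ((Finset.range m).restrict : (ℕ → ℝ) → (Finset.range m → ℝ)) := by
    fun_prop
  have e1 : ga S = γ S' := by
    rw [← hmap, Measure.map_apply hrm hS'm]
    congr 1
    ext a
    exact hiff a
  set h' : Finset.range m → ℝ := (Finset.range m).restrict h with hh'
  have e2 : ga {a | (fun k => a k - h k) ∈ S} = γ {x | x - h' ∈ S'} := by
    have hms : MeasurableSet {x : Finset.range m → ℝ | x - h' ∈ S'} := by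
      have : Measurable (fun x : Finset.range m → ℝ => x - h') := by fun_prop
      exact this hS'm
    rw [← hmap, Measure.map_apply hrm hms]
    congr 1
    ext a
    simp only [Set.mem_setOf_eq, Set.mem_preimage]
    rw [hiff]
    rfl
  have e3 : ∑ k ∈ Finset.range m, h k ^ 2 = ∑ i, h' i ^ 2 := by
    rw [← Finset.sum_coe_sort]
    rfl
  rw [e1, e2, e3]
  refine cm_pi h' S' hS'm ?_
  intro x hx
  have h1 := hsym _ hx
  rw [hS', Set.mem_preimage]
  have h2 : ext (-x) = fun k => -ext x k := by
    ext k
    by_cases hk : k ∈ Finset.range m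
    · simp [hext, Finset.mem_range.1 hk]
    · simp [hext, Finset.mem_range.not.1 hk]
  rw [h2]
  exact h1

end Pool.Agent.W799.KZ
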